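import Pool.Agent.Work.MP_88b7aa_gt.Kc.Mdk
import Pool.Agent.Work.MP_88b7aa_gt.Kc.Tpl
import Pool.Agent.Work.MP_88b7aa_gt.Kc.TplB
import Pool.Agent.Work.MP_88b7aa_gt.E3.TA11
import Pool.Agent.Work.MP_88b7aa_gt.E3.TB11

/-! The check functions of the class. -/

set_option autoImplicit false

namespace Pool.Agent.Work.MP_88b7aa_gt.D.P11_11_11i

open Pool.Agent.Work.MP_88b7aa_gt.PQ
open Pool.Agent.Work.MP_88b7aa_gt.Kc

noncomputable def H : Chs Dt := mkH 2 [fS 2 T000, fS 2 TSB, fS 2 TA11, fB 2 TB11]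

theorem H_ok : H.OK (KS (.ex 11) (.ex 11) (.iv 11 0)) := mkH_ok (by decide) (by decide) (LF.cons (fS_ok (T000_ok _) (by decide)) (LF.cons (fS_ok (TSB_ok _) (by decide)) (LF.cons (fS_ok (TA11_ok fun _ _ _ h => h.1) (by decide)) (LF.cons (fB_ok (TB11_ok fun _ _ _ h => h.1) (by decide)) LF.nil))))

end Pool.Agent.Work.MP_88b7aa_gt.D.P11_11_11i
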